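import Mathlib
import Pool.Agent.H255Z.Sum.B

open Finset in
/-- Power saving for the number of admissible `n`-tuples whose height exceeds the `M`-th power of
the radical of their product. -/
theorem Pool.Agent.Results.MP_a95293_nt.AFewAdmissible.result
    (n : ℕ) (hn : 3 ≤ n) (M η : ℝ) (hM : 0 < M) (hη : 0 < η) : ∃ D : ℝ, ∀ X : ℕ, 1 ≤ X →
      ({x : Fin n → ℤ | univ.gcd x = 1 ∧ ∑ i, x i = 0 ∧
        (∀ I : Finset (Fin n), I.Nonempty → I ≠ univ → ∑ i ∈ I, x i ≠ 0) ∧ (∀ i, |x i| ≤ X) ∧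
        ∃ j, ((∏ p ∈ (∏ i, x i).natAbs.primeFactors, p : ℕ) : ℝ) ^ M < ((|x j| : ℤ) : ℝ)}.ncard : ℝ)
        ≤ D * (X : ℝ) ^ ((1 - 1 / (n.choose (n / 2) : ℝ)) / M + η) := by
  obtain ⟨D, hD⟩ := Pool.Agent.H255Z.Sum.main n (by omega) ∅ (1 / M) 0 η (by positivity) hη
  refine ⟨D, fun X hX => ?_⟩
  have e : (1 - 1 / (n.choose (n / 2) : ℝ)) / M = 1 / M * (1 - 1 / (n.choose (n / 2) : ℝ)) := by
    ring
  rw [e]
  refine le_trans (Nat.cast_le.2 (Set.ncard_le_ncard ?_ ?_)) (hD X hX)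
  · rintro x ⟨h1, h2, h3, h4, j, h5⟩
    refine ⟨h1, h2, h3, h4, ?_⟩
    have hp : ∀ p ∈ (∏ i, x i).natAbs.primeFactors, (0 : ℝ) < p := fun p hp => by
      exact_mod_cast (Nat.prime_of_mem_primeFactors hp).pos
    have h6 : ((|x j| : ℤ) : ℝ) ≤ ((univ.sup fun i => (x i).natAbs : ℕ) : ℝ) := by
      have := Finset.le_sup (f := fun i => (x i).natAbs) (mem_univ j)
      rw [← Int.natCast_natAbs]
      exact_mod_cast this
    push_cast at h5 h6
    have h7 := Real.log_le_log (Real.rpow_pos_of_pos (Finset.prod_pos hp) M) (h5.le.trans h6)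
    rw [Real.log_rpow (Finset.prod_pos hp), Real.log_prod fun p h => (hp p h).ne'] at h7
    rw [sdiff_empty, add_zero, one_div, ← div_eq_inv_mul, le_div_iff₀' hM]
    exact h7
  · refine Set.Finite.subset (Fintype.piFinset fun _ : Fin n => Icc (-(X : ℤ)) X).finite_toSet ?_
    rintro x ⟨-, -, -, h4, -⟩
    exact mem_coe.2 (Fintype.mem_piFinset.2 fun i => mem_Icc.2 (abs_le.1 (h4 i)))
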